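import Mathlib

set_option autoImplicit false

namespace Pool.Agent.Helper34

open Polynomial Finset

section
variable {K : Type*} [Field K] (Q : K)

/-- `(x; Q)_k` as a polynomial in `x`. -/
noncomputable def phi (k : ℕ) : K[X] := ∏ j ∈ range k, (1 - C (Q ^ j) * X)

/-- `x (Qx; Q)_{k-1}`. -/
noncomputable def psi (k : ℕ) : K[X] := X * ∏ j ∈ range (k - 1), (1 - C (Q ^ (j + 1)) * X)

lemma phi_succ (k : ℕ) : phi Q (k + 1) = phi Q k * (1 - C (Q ^ k) * X) := by
  rw [phi, prod_range_succ, ← phi]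

lemma phi_zero : phi Q 0 = 1 := by simp [phi]

lemma phi_coeff (k : ℕ) : (∀ i, k < i → (phi Q k).coeff i = 0) ∧
    (phi Q k).coeff k = (-1) ^ k * Q ^ (∑ i ∈ range k, i) := by
  induction k with
  | zero =>
    constructor
    · intro i hi
      rw [phi_zero, coeff_one, if_neg (by omega)]
    · simp [phi_zero]
  | succ k ih =>
    obtain ⟨h1, h2⟩ := ih
    have key : ∀ i, (phi Q (k + 1)).coeff (i + 1)
        = (phi Q k).coeff (i + 1) - Q ^ k * (phi Q k).coeff i := by
      intro i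
      rw [phi_succ, mul_sub, mul_one, coeff_sub, ← mul_assoc, coeff_mul_X, coeff_mul_C]
      ring
    constructor
    · intro i hi
      obtain ⟨i, rfl⟩ : ∃ i', i = i' + 1 := ⟨i - 1, by omega⟩
      rw [key, h1 _ (by omega), h1 _ (by omega)]
      ring
    · rw [key, h1 _ (by omega), h2, sum_range_succ]
      ring

/-- `(Qx;Q)_k`. -/
noncomputable def phi1 (k : ℕ) : K[X] := ∏ j ∈ range k, (1 - C (Q ^ (j + 1)) * X)

lemma phi_comp (k : ℕ) : (phi Q k).comp (C Q * X) = phi1 Q k := by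
  rw [phi, phi1, Polynomial.prod_comp]
  refine prod_congr rfl fun j _ => ?_
  simp only [sub_comp, one_comp, mul_comp, C_comp, X_comp, pow_succ, C_mul]
  ring

lemma phi_eq (k : ℕ) : phi Q (k + 1) = (1 - X) * phi1 Q k := by
  rw [phi, phi1, prod_range_succ']
  simp
  ring

lemma phi1_succ (k : ℕ) : phi1 Q (k + 1) = phi1 Q k * (1 - C (Q ^ (k + 1)) * X) := by
  rw [phi1, prod_range_succ, ← phi1]

lemma psi_succ (k : ℕ) : psi Q (k + 1) = X * phi1 Q k := by
  rw [psi, phi1]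
  simp

lemma phi1_comp (k : ℕ) : (1 - C Q * X) * (phi1 Q k).comp (C Q * X) = phi1 Q (k + 1) := by
  rw [phi1, phi1, Polynomial.prod_comp, prod_range_succ']
  simp only [sub_comp, one_comp, mul_comp, C_comp, X_comp]
  rw [mul_comm]
  congr 1
  · refine prod_congr rfl fun j _ => ?_
    simp only [pow_succ, C_mul]
    ring
  · simp

/-- The telescoping identity for one basis element. -/
lemma key_phi (t : K) (k : ℕ) :
    C (Q ^ k) * ((1 - X) * phi Q k - (2 - C t * X) * (phi Q k).comp (C Q * X)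
      + (1 - C Q * X) * ((phi Q k).comp (C Q * X)).comp (C Q * X))
    = C ((1 - Q ^ k) ^ 2) * psi Q k - C (1 + Q ^ (2 * k + 1) - Q ^ k * t) * psi Q (k + 1) := by
  rw [phi_comp, phi1_comp, psi_succ]
  cases k with
  | zero =>
    simp [phi, phi1, psi]
    ring
  | succ k =>
    rw [phi_eq, psi_succ, phi1_succ Q (k + 1), phi1_succ Q k]
    simp only [map_sub, map_add, map_mul, map_pow, map_one]
    ring

/-- The `Q`-difference operator. -/
noncomputable def LL (t : K) (f : K[X]) : K[X] :=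
  (1 - X) * f - (2 - C t * X) * f.comp (C Q * X)
      + (1 - C Q * X) * (f.comp (C Q * X)).comp (C Q * X)

lemma LL_add (t : K) (f g : K[X]) : LL Q t (f + g) = LL Q t f + LL Q t g := by
  simp only [LL, add_comp]
  ring

lemma LL_C_mul (t a : K) (f : K[X]) : LL Q t (C a * f) = C a * LL Q t f := by
  simp only [LL, mul_comp, C_comp]
  ring

lemma LL_sub (t : K) (f g : K[X]) : LL Q t (f - g) = LL Q t f - LL Q t g := by
  simp only [LL, sub_comp]
  ring

lemma LL_sum (t : K) {ι : Type*} (s : Finset ι) (f : ι → K[X]) :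
    LL Q t (∑ i ∈ s, f i) = ∑ i ∈ s, LL Q t (f i) := by
  classical
  induction s using Finset.induction_on with
  | empty => simp [LL]
  | insert a s ha ih => rw [sum_insert ha, sum_insert ha, LL_add, ih]

lemma LL_coeff_zero (t : K) (f : K[X]) : (LL Q t f).coeff 0 = 0 := by
  simp only [LL, coeff_add, coeff_sub, mul_coeff_zero, comp_C_mul_X_coeff]
  simp
  ring

lemma LL_coeff_succ (t : K) (f : K[X]) (k : ℕ) : (LL Q t f).coeff (k + 1) =
    (1 - Q ^ (k + 1)) ^ 2 * f.coeff (k + 1) - (1 + Q ^ (2 * k + 1) - Q ^ k * t) * f.coeff k := by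
  have h : LL Q t f = f - f * X - (C 2 * f.comp (C Q * X) - C t * (f.comp (C Q * X)) * X)
      + ((f.comp (C Q * X)).comp (C Q * X) - C Q * ((f.comp (C Q * X)).comp (C Q * X)) * X) := by
    simp only [LL, map_ofNat]
    ring
  rw [h]
  simp only [coeff_add, coeff_sub, coeff_mul_X, coeff_C_mul, comp_C_mul_X_coeff]
  ring

lemma LL_unique (hQ1 : ∀ j : ℕ, Q ^ (j + 1) ≠ 1) (t : K) (f : K[X]) (hf : LL Q t f = 0)
    (h0 : f.coeff 0 = 0) : f = 0 := by
  ext k
  rw [coeff_zero]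
  induction k with
  | zero => exact h0
  | succ k ih =>
    have h := LL_coeff_succ Q t f k
    rw [hf, coeff_zero, ih, mul_zero, sub_zero] at h
    have h1 : (1 - Q ^ (k + 1)) ^ 2 ≠ 0 := by
      apply pow_ne_zero
      rw [sub_ne_zero]
      exact (hQ1 k).symm
    rcases mul_eq_zero.mp h.symm with h2 | h2
    · exact absurd h2 h1
    · exact h2

/-- The general identity, for a sequence satisfying the recursion. -/
theorem S_T_identity (hQ1 : ∀ j : ℕ, Q ^ (j + 1) ≠ 1) (t : K) (c : ℕ → K) (hc0 : c 0 = 1)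
    (hc : ∀ k, (1 - Q ^ (k + 1)) ^ 2 * c (k + 1) = (1 + Q ^ (2 * k + 1) - Q ^ k * t) * c k)
    (n M : ℕ) (hn : n < M) (hcn : c n ≠ 0) (hcz : ∀ k, n < k → c k = 0) :
    ∑ k ∈ range M, C (c k * Q ^ k) * phi Q k
      = C ((-1) ^ n * Q ^ (∑ i ∈ range (n + 1), i)) * ∑ k ∈ range M, C (c k) * X ^ k := by
  set T : K[X] := ∑ k ∈ range M, C (c k * Q ^ k) * phi Q k with hT
  set S : K[X] := ∑ k ∈ range M, C (c k) * X ^ k with hS
  have hScoeff : ∀ k, S.coeff k = c k := by
    intro k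
    rw [hS, finsetSum_coeff]
    simp only [coeff_C_mul_X_pow]
    rw [Finset.sum_ite_eq]
    split_ifs with h
    · rfl
    · rw [hcz k]
      simp only [mem_range, not_lt] at h
      omega
  have hLS : LL Q t S = 0 := by
    ext k
    cases k with
    | zero => rw [LL_coeff_zero, coeff_zero]
    | succ k =>
      rw [LL_coeff_succ, hScoeff, hScoeff, hc, coeff_zero, sub_self]
  have hLT : LL Q t T = 0 := by
    rw [hT, LL_sum]
    have h1 : ∀ k ∈ range M, LL Q t (C (c k * Q ^ k) * phi Q k)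
        = C (c k * (1 - Q ^ k) ^ 2) * psi Q k
          - C (c (k + 1) * (1 - Q ^ (k + 1)) ^ 2) * psi Q (k + 1) := by
      intro k _
      rw [LL_C_mul, C_mul, mul_assoc, LL, key_phi, mul_comm (c (k + 1)), hc, C_mul, C_mul]
      ring
    rw [sum_congr rfl h1, sum_range_sub', hcz M hn]
    simp
  have hTS : T = C (T.coeff 0) * S := by
    rw [← sub_eq_zero]
    apply LL_unique Q hQ1 t
    · rw [LL_sub, LL_C_mul, hLS, hLT]
      simp
    · rw [coeff_sub, coeff_C_mul, hScoeff, hc0]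
      ring
  have hTn : T.coeff n = c n * Q ^ n * ((-1) ^ n * Q ^ (∑ i ∈ range n, i)) := by
    rw [hT, finsetSum_coeff, Finset.sum_eq_single n]
    · rw [coeff_C_mul, (phi_coeff Q n).2]
    · intro k _ hk
      rw [coeff_C_mul]
      rcases lt_or_gt_of_ne hk with h | h
      · rw [(phi_coeff Q k).1 n h, mul_zero]
      · rw [hcz k h, zero_mul, zero_mul]
    · intro h
      exact absurd (mem_range.mpr hn) h
  have hT0 : T.coeff 0 = (-1) ^ n * Q ^ (∑ i ∈ range (n + 1), i) := by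
    have h2 : T.coeff n = T.coeff 0 * c n := by
      conv_lhs => rw [hTS]
      rw [coeff_C_mul, hScoeff]
    rw [hTn] at h2
    have h3 : T.coeff 0 * c n = ((-1) ^ n * Q ^ (∑ i ∈ range (n + 1), i)) * c n := by
      rw [← h2, sum_range_succ, pow_add]
      ring
    exact mul_right_cancel₀ hcn h3
  rw [← hT0]
  exact hTS

/-- The coefficients `∏ (1 - u Q^j)(1 - v Q^j)/(1 - Q^{j+1})^2`. -/
noncomputable def cc (u v : K) (k : ℕ) : K :=
  ∏ j ∈ range k, (1 - u * Q ^ j) * (1 - v * Q ^ j) / (1 - Q ^ (j + 1)) ^ 2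

lemma cc_comm (u v : K) (k : ℕ) : cc Q u v k = cc Q v u k := by
  rw [cc, cc]
  refine prod_congr rfl fun j _ => ?_
  rw [mul_comm (1 - u * Q ^ j)]

lemma cc_rec (hQ1 : ∀ j : ℕ, Q ^ (j + 1) ≠ 1) (u v : K) (huv : u * v = Q) (k : ℕ) :
    (1 - Q ^ (k + 1)) ^ 2 * cc Q u v (k + 1)
      = (1 + Q ^ (2 * k + 1) - Q ^ k * (u + v)) * cc Q u v k := by
  have h1 : (1 - Q ^ (k + 1)) ^ 2 ≠ 0 := by
    apply pow_ne_zero
    rw [sub_ne_zero]
    exact (hQ1 k).symm
  have h2 : Q ^ (2 * k + 1) = u * v * (Q ^ k) ^ 2 := by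
    rw [huv]
    ring
  have h3 : cc Q u v (k + 1)
      = cc Q u v k * ((1 - u * Q ^ k) * (1 - v * Q ^ k) / (1 - Q ^ (k + 1)) ^ 2) := by
    rw [cc, prod_range_succ, ← cc]
  rw [h3, h2]
  generalize (1 - Q ^ (k + 1)) ^ 2 = d at *
  field_simp
  ring

/-- The terminating identity. -/
theorem legendre (hQ : Q ≠ 0) (hQ1 : ∀ j : ℕ, Q ^ (j + 1) ≠ 1) (n M : ℕ) (hn : n < M) :
    ∑ k ∈ range M, C (cc Q (Q ^ n)⁻¹ (Q ^ (n + 1)) k * Q ^ k) * phi Q k
      = C ((-1) ^ n * Q ^ (∑ i ∈ range (n + 1), i)) *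
        ∑ k ∈ range M, C (cc Q (Q ^ n)⁻¹ (Q ^ (n + 1)) k) * X ^ k := by
  have hQn : Q ^ n ≠ 0 := pow_ne_zero _ hQ
  apply S_T_identity Q hQ1 ((Q ^ n)⁻¹ + Q ^ (n + 1))
  · simp [cc]
  · intro k
    apply cc_rec Q hQ1
    field_simp
    ring
  · exact hn
  · rw [cc, prod_ne_zero_iff]
    intro j hj
    rw [mem_range] at hj
    refine div_ne_zero (mul_ne_zero ?_ ?_) (pow_ne_zero _ ?_)
    · rw [sub_ne_zero]
      intro h
      apply hQ1 (n - j - 1)
      have h3 : Q ^ n = Q ^ j := by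
        field_simp at h
        exact h
      have h4 : Q ^ (n - j - 1 + 1) * Q ^ j = 1 * Q ^ j := by
        rw [← pow_add, one_mul, ← h3]
        congr 1
        omega
      exact mul_right_cancel₀ (pow_ne_zero _ hQ) h4
    · rw [sub_ne_zero, ← pow_add]
      have := hQ1 (n + j)
      rw [show n + 1 + j = n + j + 1 by ring]
      exact this.symm
    · rw [sub_ne_zero]
      exact (hQ1 j).symm
  · intro k hk
    rw [cc, prod_eq_zero (mem_range.mpr hk)]
    rw [inv_mul_cancel₀ hQn]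
    simp

end

end Pool.Agent.Helper34
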